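import Pool.Agent.W207.SW.SpecS

/-! # SW-BLCI: modulation and averages of band-limited functions -/

set_option autoImplicit false

open Filter Topology Set MeasureTheory

namespace Pool.Agent.W515.SW.BLCI

open W207.PR (ct) 
open W207.SW

lemma hcs {p : ℝ → ℝ} {a : ℝ} (hs : ∀ x, a ≤ |x| → p x = 0) : HasCompactSupport p := by
  apply HasCompactSupport.intro (isCompact_Icc (a := -a) (b := a))
  intro x hx
  apply hs
  by_contra h
  apply hx
  have := abs_lt.1 (not_le.1 h)
  exact ⟨this.1.le, this.2.le⟩

theorem blc : S_BLC := by
  intro a ξ h ha ⟨p, hp, he, hs, hh⟩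
  refine ⟨fun x => (p (x - ξ) + p (x + ξ)) / 2, by fun_prop, ?_, ?_, ?_⟩
  · intro x
    have h1 : -x - ξ = -(x + ξ) := by ring
    have h2 : -x + ξ = -(x - ξ) := by ring
    simp only [h1, h2, he]
    ring
  · intro x hx
    have h1 : p (x - ξ) = 0 := by
      apply hs
      have := abs_sub_abs_le_abs_sub x ξ
      linarith
    have h2 : p (x + ξ) = 0 := by
      apply hs
      have := abs_sub_abs_le_abs_sub x (-ξ)
      rw [abs_neg, sub_neg_eq_add] at this
      linarith
    simp [h1, h2]
  · intro u
    beta_reduce
    rw [hh u]
    have hc := hcs hs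
    have i1 : Integrable (fun x => p x * Real.cos (2 * Real.pi * (x + ξ) * u)) :=
      (by fun_prop : Continuous _).integrable_of_hasCompactSupport hc.mul_right
    have i2 : Integrable (fun x => p x * Real.cos (2 * Real.pi * (x - ξ) * u)) :=
      (by fun_prop : Continuous _).integrable_of_hasCompactSupport hc.mul_right
    have e1 : ∫ x, p (x - ξ) * Real.cos (2 * Real.pi * x * u) =
        ∫ x, p x * Real.cos (2 * Real.pi * (x + ξ) * u) := by
      have := integral_sub_right_eq_self
        (fun x => p x * Real.cos (2 * Real.pi * (x + ξ) * u)) (μ := volume) ξ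
      rw [← this]
      congr 1
      funext x
      simp
    have e2 : ∫ x, p (x + ξ) * Real.cos (2 * Real.pi * x * u) =
        ∫ x, p x * Real.cos (2 * Real.pi * (x - ξ) * u) := by
      have := integral_add_right_eq_self
        (fun x => p x * Real.cos (2 * Real.pi * (x - ξ) * u)) (μ := volume) ξ
      rw [← this]
      congr 1
      funext x
      simp
    have j1 : Integrable (fun x => p (x - ξ) * Real.cos (2 * Real.pi * x * u)) := by
      have := i1.comp_sub_right ξ
      simpa using this
    have j2 : Integrable (fun x => p (x + ξ) * Real.cos (2 * Real.pi * x * u)) := by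
      have := i2.comp_add_right ξ
      simpa using this
    unfold ct
    have s1 : ∫ α : ℝ, (p (α - ξ) + p (α + ξ)) / 2 * Real.cos (2 * Real.pi * α * u) =
        ((∫ x, p (x - ξ) * Real.cos (2 * Real.pi * x * u)) +
          ∫ x, p (x + ξ) * Real.cos (2 * Real.pi * x * u)) / 2 := by
      rw [← integral_add j1 j2, ← integral_div]
      congr 1
      funext x
      ring
    rw [s1, e1, e2, ← integral_add i1 i2, ← integral_div, ← integral_mul_const]
    congr 1
    funext x
    have c1 : 2 * Real.pi * (x + ξ) * u = 2 * Real.pi * x * u + 2 * Real.pi * ξ * u := by ring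
    have c2 : 2 * Real.pi * (x - ξ) * u = 2 * Real.pi * x * u - 2 * Real.pi * ξ * u := by ring
    rw [c1, c2, Real.cos_add, Real.cos_sub]
    ring

theorem bli : S_BLI := by
  intro a x y h ha hxy ⟨p, hp, he, hs, hh⟩
  have hc := hcs hs
  refine ⟨fun α => p α * ∫ s in x..y, 2 * Real.cos (2 * Real.pi * α * s), ?_, ?_, ?_, ?_⟩
  · apply hp.mul
    apply intervalIntegral.continuous_parametric_intervalIntegral_of_continuous'
    fun_prop
  · intro α
    beta_reduce
    rw [he]
    congr 2
    funext s
    have : 2 * Real.pi * -α * s = -(2 * Real.pi * α * s) := by ring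
    rw [this, Real.cos_neg]
  · intro α hα
    simp [hs α hα]
  · intro u
    have k : ∀ s, h (u - s) + h (u + s) =
        ∫ α, p α * (2 * Real.cos (2 * Real.pi * α * s)) * Real.cos (2 * Real.pi * α * u) := by
      intro s
      rw [hh, hh]
      unfold ct
      have i1 : Integrable (fun α => p α * Real.cos (2 * Real.pi * α * (u - s))) :=
        (by fun_prop : Continuous _).integrable_of_hasCompactSupport hc.mul_right
      have i2 : Integrable (fun α => p α * Real.cos (2 * Real.pi * α * (u + s))) :=
        (by fun_prop : Continuous _).integrable_of_hasCompactSupport hc.mul_right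
      rw [← integral_add i1 i2]
      congr 1
      funext α
      have c1 : 2 * Real.pi * α * (u - s) = 2 * Real.pi * α * u - 2 * Real.pi * α * s := by ring
      have c2 : 2 * Real.pi * α * (u + s) = 2 * Real.pi * α * u + 2 * Real.pi * α * s := by ring
      rw [c1, c2, Real.cos_add, Real.cos_sub]
      ring
    simp only [k]
    unfold ct
    rw [intervalIntegral_integral_swap]
    · congr 1
      funext α
      beta_reduce
      rw [intervalIntegral.integral_mul_const, intervalIntegral.integral_const_mul]
    · have hsub : Integrable (Function.uncurry fun (s α : ℝ) =>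
          p α * (2 * Real.cos (2 * Real.pi * α * s)) * Real.cos (2 * Real.pi * α * u))
          ((volume.restrict (Set.uIoc x y)).prod volume) := by
        have hcont : Continuous (Function.uncurry fun (s α : ℝ) =>
          p α * (2 * Real.cos (2 * Real.pi * α * s)) * Real.cos (2 * Real.pi * α * u)) := by
          fun_prop
        have ip : Integrable p := hp.integrable_of_hasCompactSupport hc
        have i0 : Integrable (fun z : ℝ × ℝ => (2 : ℝ) * p z.2)
            ((volume.restrict (Set.uIoc x y)).prod volume) := by
          haveI : IsFiniteMeasure ((volume : Measure ℝ).restrict (Set.uIoc x y)) := by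
            constructor
            rw [Measure.restrict_apply_univ, Set.uIoc]
            exact measure_Ioc_lt_top
          exact Integrable.mul_prod (f := fun _ : ℝ => (2 : ℝ)) (integrable_const 2) ip
        apply i0.mono hcont.aestronglyMeasurable
        refine Filter.Eventually.of_forall fun z => ?_
        simp only [Function.uncurry, norm_mul, Real.norm_eq_abs]
        have a1 := Real.abs_cos_le_one (2 * Real.pi * z.2 * z.1)
        have a2 := Real.abs_cos_le_one (2 * Real.pi * z.2 * u)
        have a3 := abs_nonneg (p z.2)
        have a4 := abs_nonneg (Real.cos (2 * Real.pi * z.2 * z.1))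
        have a5 := abs_nonneg (Real.cos (2 * Real.pi * z.2 * u))
        have a6 : |(2 : ℝ)| = 2 := by norm_num
        rw [a6]
        have : |Real.cos (2 * Real.pi * z.2 * z.1)| * |Real.cos (2 * Real.pi * z.2 * u)| ≤ 1 := by
          calc _ ≤ 1 * 1 := mul_le_mul a1 a2 a5 zero_le_one
            _ = 1 := by ring
        nlinarith
      exact hsub

end Pool.Agent.W515.SW.BLCI
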